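import Pool.Agent.Helper14.WK.StA

/-!
# Project WK, module KH1: the Hecke relation for a cusp form and its converse
-/

set_option autoImplicit false

open Pool.Agent.Helper14.WK Filter Topology

namespace Pool.Agent.Helper79.WK

/-- the sum of the characters over `j < l` -/
private theorem gsum (l r : ℕ) (m : ℤ) (hl : 0 < l) (hm : IsCoprime m (l : ℤ)) (z : ℂ) :
    ∑ j ∈ Finset.range l, Complex.exp (2 * Real.pi * Complex.I * r * ((z + m * j) / l)) =
      if l ∣ r then (l : ℂ) * Complex.exp (2 * Real.pi * Complex.I * (r / l : ℕ) * z) else 0 := by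
  have hl0 : (l : ℂ) ≠ 0 := by exact_mod_cast hl.ne'
  obtain ⟨w, hw⟩ : ∃ w : ℂ, w = Complex.exp (2 * Real.pi * Complex.I * r * m / l) := ⟨_, rfl⟩
  have hterm : ∀ j : ℕ, Complex.exp (2 * Real.pi * Complex.I * r * ((z + m * j) / l)) =
      Complex.exp (2 * Real.pi * Complex.I * r * z / l) * w ^ j := by
    intro j
    rw [hw, ← Complex.exp_nat_mul, ← Complex.exp_add]
    congr 1
    ring
  rw [Finset.sum_congr rfl (fun j _ => hterm j), ← Finset.mul_sum]
  split_ifs with h
  · obtain ⟨k, rfl⟩ := h
    have h1 : w = 1 := by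
      rw [hw, Complex.exp_eq_one_iff]
      refine ⟨k * m, ?_⟩
      push_cast
      field_simp
    rw [h1, Nat.mul_div_cancel_left k hl]
    simp only [one_pow, Finset.sum_const, Finset.card_range, nsmul_eq_mul, mul_one]
    rw [mul_comm]
    congr 2
    push_cast
    field_simp
  · have h1 : w ≠ 1 := by
      intro h2
      rw [hw, Complex.exp_eq_one_iff] at h2
      obtain ⟨t, ht⟩ := h2
      apply h
      have h3 : (r : ℂ) * m = t * l := by
        field_simp at ht
        have h4 : (2 * Real.pi * Complex.I : ℂ) * (r * m) = (2 * Real.pi * Complex.I) * (t * l) := by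
          linear_combination (2 * Real.pi * Complex.I : ℂ) * ht
        exact mul_left_cancel₀ Complex.two_pi_I_ne_zero h4
      have h5 : (r : ℤ) * m = t * l := by exact_mod_cast h3
      have h6 : (l : ℤ) ∣ r * m := ⟨t, by rw [h5]; ring⟩
      exact Int.natCast_dvd_natCast.mp (hm.symm.dvd_of_dvd_mul_right h6)
    have hwl : w ^ l = 1 := by
      rw [hw, ← Complex.exp_nat_mul, Complex.exp_eq_one_iff]
      refine ⟨r * m, ?_⟩
      push_cast
      field_simp
    rw [geom_sum_eq h1, hwl, sub_self, zero_div, mul_zero]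

/-- A series over the multiples of `l`, reindexed. -/
private lemma hasSum_mult (l : ℕ) (hl : 0 < l) (a : ℕ → ℂ) (s : ℂ) :
    HasSum (fun m : ℕ => if l ∣ m then a (m / l) else 0) s ↔ HasSum a s := by
  have hinj : Function.Injective (fun m : ℕ => l * m) := by
    intro x y hxy
    exact Nat.eq_of_mul_eq_mul_left hl hxy
  rw [← hinj.hasSum_iff (f := fun m : ℕ => if l ∣ m then a (m / l) else 0)]
  · have h1 : ((fun m : ℕ => if l ∣ m then a (m / l) else 0) ∘ fun m : ℕ => l * m) = a := by
      funext m
      simp only [Function.comp_apply, dvd_mul_right, if_true]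
      rw [Nat.mul_div_cancel_left m hl]
    rw [h1]
  · intro m hm
    have h1 : ¬ l ∣ m := by
      rintro ⟨t, rfl⟩
      exact hm ⟨t, rfl⟩
    simp only [h1, if_false]

/-- the two series -/
private lemma ser {a : ℕ → ℂ} {F : ℂ → ℂ} (hF : ∀ z : ℂ, 0 < z.im →
      HasSum (fun m : ℕ => a m * Complex.exp (2 * Real.pi * Complex.I * m * z)) (F z))
    (l : ℕ) (hl : 0 < l) (m : ℤ) (hm : IsCoprime m (l : ℤ)) (z : ℂ) (hz : 0 < z.im) :
    HasSum (fun r : ℕ => if l ∣ r then a (r / l) *
      Complex.exp (2 * Real.pi * Complex.I * r * z) else 0) (F (l * z)) ∧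
    HasSum (fun r : ℕ => a (l * r) * Complex.exp (2 * Real.pi * Complex.I * r * z))
      ((l : ℂ)⁻¹ * ∑ j ∈ Finset.range l, F ((z + m * j) / l)) := by
  have hl0 : (l : ℂ) ≠ 0 := by exact_mod_cast hl.ne'
  have hlR : (0 : ℝ) < l := by exact_mod_cast hl
  constructor
  · have h2 := hF (l * z) (by
      rw [Complex.mul_im]
      simp
      positivity)
    have h3 := (hasSum_mult l hl _ _).mpr h2
    have h4 : (fun r : ℕ => if l ∣ r then a (r / l) *
        Complex.exp (2 * Real.pi * Complex.I * r * z) else 0) = fun r : ℕ =>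
        if l ∣ r then a (r / l) *
          Complex.exp (2 * Real.pi * Complex.I * (r / l : ℕ) * (l * z)) else 0 := by
      funext r
      split_ifs with hd
      · obtain ⟨t, rfl⟩ := hd
        rw [Nat.mul_div_cancel_left t hl]
        congr 2
        push_cast
        ring
      · rfl
    rw [h4]
    exact h3
  · have h2 : ∀ j ∈ Finset.range l, HasSum (fun n : ℕ => a n *
        Complex.exp (2 * Real.pi * Complex.I * n * ((z + m * j) / l))) (F ((z + m * j) / l)) := by
      intro j _
      apply hF
      have h5 : (z + m * j) / l = ((l : ℝ)⁻¹ : ℝ) * (z + m * j) := by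
        push_cast
        field_simp
      have h6 : ((m : ℂ) * j).im = 0 := by
        have : (m : ℂ) * j = ((m * j : ℤ) : ℂ) := by push_cast; ring
        rw [this, Complex.intCast_im]
      rw [h5, Complex.im_ofReal_mul, Complex.add_im, h6, add_zero]
      exact mul_pos (inv_pos.mpr hlR) hz
    have h3 := (hasSum_sum h2).mul_left ((l : ℂ)⁻¹)
    have h4 : (fun n : ℕ => (l : ℂ)⁻¹ * ∑ j ∈ Finset.range l, a n *
        Complex.exp (2 * Real.pi * Complex.I * n * ((z + m * j) / l))) =
        fun n : ℕ => if l ∣ n then a (l * (n / l)) *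
          Complex.exp (2 * Real.pi * Complex.I * (n / l : ℕ) * z) else 0 := by
      funext n
      rw [← Finset.mul_sum, gsum l n m hl hm z]
      split_ifs with hd
      · obtain ⟨t, rfl⟩ := hd
        rw [Nat.mul_div_cancel_left t hl]
        field_simp
      · rw [mul_zero, mul_zero]
    rw [h4] at h3
    exact (hasSum_mult l hl (fun r : ℕ => a (l * r) *
      Complex.exp (2 * Real.pi * Complex.I * r * z)) _).mp h3

/-- A power series which vanishes on the punctured unit disc has vanishing coefficients. -/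
private lemma coeff_zero (c : ℕ → ℂ)
    (h : ∀ q : ℂ, q ≠ 0 → ‖q‖ < 1 → HasSum (fun m : ℕ => c m * q ^ m) 0) :
    ∀ m : ℕ, m ≠ 0 → c m = 0 := by
  intro m hm
  set p : FormalMultilinearSeries ℂ ℂ ℂ := FormalMultilinearSeries.ofScalars ℂ c with hp
  have hpc : ∀ n, p.coeff n = c n := by
    intro n
    rw [hp]
    simp [FormalMultilinearSeries.coeff_ofScalars]
  set g : ℂ → ℂ := fun q => if q = 0 then c 0 else 0 with hg
  have hgp : HasFPowerSeriesAt g p 0 := by
    rw [hasFPowerSeriesAt_iff]
    have hball : Metric.ball (0 : ℂ) 1 ∈ 𝓝 (0 : ℂ) := Metric.ball_mem_nhds _ one_pos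
    filter_upwards [hball] with z hz
    simp only [Metric.mem_ball, dist_zero_right] at hz
    simp only [hpc, smul_eq_mul, zero_add]
    by_cases h0 : z = 0
    · subst h0
      have h1 : HasSum (fun n : ℕ => (0 : ℂ) ^ n * c n) ((0 : ℂ) ^ 0 * c 0) := by
        refine hasSum_single 0 ?_
        intro n hn
        rw [zero_pow hn, zero_mul]
      simpa [hg] using h1
    · have h1 := h z h0 hz
      have h2 : (fun n : ℕ => z ^ n * c n) = fun n : ℕ => c n * z ^ n := by
        funext n
        ring
      rw [h2]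
      simpa [hg, h0] using h1
  have hcont : ContinuousAt g 0 := hgp.continuousAt
  have h0k : c 0 = 0 := by
    have h1 : Tendsto g (𝓝[≠] 0) (𝓝 (g 0)) := hcont.tendsto.mono_left nhdsWithin_le_nhds
    have h2 : Tendsto g (𝓝[≠] 0) (𝓝 0) := by
      refine (tendsto_const_nhds (x := (0 : ℂ))).congr' ?_
      filter_upwards [self_mem_nhdsWithin] with z hz
      have hz' : z ≠ 0 := hz
      simp [hg, hz']
    have h3 := tendsto_nhds_unique h1 h2
    simpa [hg] using h3
  have hgk : g = fun _ => 0 := by
    funext z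
    by_cases hz : z = 0
    · simp [hg, hz, h0k]
    · simp [hg, hz]
  rw [hgk] at hgp
  have h3 := hgp.eq_formalMultilinearSeries (hasFPowerSeriesAt_const (𝕜 := ℂ) (c := (0 : ℂ)) (e := 0))
  have h4 : p.coeff m = 0 := by
    rw [h3]
    unfold FormalMultilinearSeries.coeff
    rw [constFormalMultilinearSeries_apply_of_nonzero hm]
    rfl
  rw [← hpc m, h4]

theorem hKH1 (h1 : SKA1) : SKH1 := by
  intro N hN k f l lam hl
  have hF : ∀ z : ℂ, 0 < z.im →
      HasSum (fun m : ℕ => fcK f m * Complex.exp (2 * Real.pi * Complex.I * m * z)) (fzK f z) :=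
    fun z hz => (h1 N hN k f z hz).2.2.1
  have h0 : fcK f 0 = 0 := (h1 N hN k f Complex.I (by simp)).1
  refine ⟨fun hf m hm z hz => ?_, fun H => ?_⟩
  · obtain ⟨s1, s2⟩ := ser hF l hl m hm z hz
    have s3 := (s1.mul_left ((l : ℂ) ^ (k - 1))).add s2
    have e : (fun r : ℕ => (l : ℂ) ^ (k - 1) * (if l ∣ r then fcK f (r / l) *
        Complex.exp (2 * Real.pi * Complex.I * r * z) else 0) +
        fcK f (l * r) * Complex.exp (2 * Real.pi * Complex.I * r * z)) =
        fun r : ℕ => lam * (fcK f r * Complex.exp (2 * Real.pi * Complex.I * r * z)) := by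
      funext r
      have h3 := hf r
      rw [← mul_assoc, ← h3]
      split_ifs with hd
      · ring
      · ring
    rw [e] at s3
    exact s3.unique ((hF z hz).mul_left lam)
  · obtain ⟨c, hc⟩ : ∃ c : ℕ → ℂ, c = fun r => fcK f (l * r) +
      (if l ∣ r then (l : ℂ) ^ (k - 1) * fcK f (r / l) else 0) - lam * fcK f r := ⟨_, rfl⟩
    have hser : ∀ q : ℂ, q ≠ 0 → ‖q‖ < 1 → HasSum (fun m : ℕ => c m * q ^ m) 0 := by
      intro q hq0 hq1
      obtain ⟨z, hz⟩ : ∃ z : ℂ, z = Complex.log q / (2 * Real.pi * Complex.I) := ⟨_, rfl⟩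
      have hzq : Complex.exp (2 * Real.pi * Complex.I * z) = q := by
        rw [hz, mul_div_cancel₀ _ Complex.two_pi_I_ne_zero, Complex.exp_log hq0]
      have hzim : 0 < z.im := by
        by_contra hcon
        push Not at hcon
        have h2 : ‖q‖ = Real.exp (-(2 * Real.pi * z.im)) := by
          rw [← hzq, Complex.norm_exp]
          congr 1
          simp [Complex.mul_re, Complex.mul_im]
        have h3 : (1 : ℝ) ≤ Real.exp (-(2 * Real.pi * z.im)) := by
          apply Real.one_le_exp
          have := Real.pi_pos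
          nlinarith [mul_nonneg this.le (neg_nonneg.mpr hcon)]
        linarith
      have hexp : ∀ m : ℕ, Complex.exp (2 * Real.pi * Complex.I * m * z) = q ^ m := by
        intro m
        rw [← hzq, ← Complex.exp_nat_mul]
        congr 1
        ring
      obtain ⟨s1, s2⟩ := ser hF l hl 1 isCoprime_one_left z hzim
      have s3 := ((s1.mul_left ((l : ℂ) ^ (k - 1))).add s2).sub ((hF z hzim).mul_left lam)
      have e1 : (l : ℂ) ^ (k - 1) * fzK f (l * z) +
          (l : ℂ)⁻¹ * ∑ j ∈ Finset.range l, fzK f ((z + ((1 : ℤ) : ℂ) * j) / l) -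
          lam * fzK f z = 0 := by
        have := H z hzim
        simp only [Int.cast_one, one_mul]
        rw [this, sub_self]
      rw [e1] at s3
      refine s3.congr_fun ?_ |> fun h => h
      intro r
      rw [hc]
      simp only [hexp]
      split_ifs with hd
      · ring
      · ring
    intro m
    rcases Nat.eq_zero_or_pos m with hm | hm
    · subst hm
      simp [h0]
    · have h2 := coeff_zero c hser m hm.ne'
      rw [hc] at h2
      simp only at h2
      exact sub_eq_zero.1 h2

end Pool.Agent.Helper79.WK
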